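import Pool.Agent.V11237.LP.Short

set_option autoImplicit false

/-!
# Almost primes between the squares of consecutive primes: the laws of the gaps

Call `m` good if it has no prime factor up to `p ^ (1 / r)`. In EVERY interval `(u, u + Y]` between the squares of the consecutive primes `p < q` with `Y ≥ p ^ θ` the distances of the
good integers to the `l`-th good integer before them have the Gamma distributions of a Poisson process of
density `U`, the product of `1 - 1 / p` over the primes `p ≤ p ^ (1 / r)`, up to `ε`, for every `l ≤ l₀` and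
all distances (and for every `l` if the distance is at most `x₀ / U`). With `T = 0` this is the asymptotic
number of the good integers.
-/

namespace Pool.Agent.Results.MP_739ba1_nt.AlmostPrimeGapLaws

open Finset Filter
open Pool.Agent.V11237.LP.Short

/-- **The laws of the gaps of the almost primes between the squares of consecutive primes** `p < q`, in all subintervals of length at least `p ^ θ`. -/
theorem result (θ : ℝ) (hθ : 0 < θ) (l₀ : ℕ) (x₀ ε : ℝ) (hε : 0 < ε) :
    ∃ r₀ : ℕ, ∀ r : ℕ, r₀ ≤ r → ∃ p₀ : ℕ, ∀ p : ℕ, p₀ ≤ p → p.Prime → ∀ q : ℕ, q.Prime → p < q → (∀ s : ℕ, s.Prime → p < s → q ≤ s) →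
      (∀ m : ℕ, m ≠ 0 → m ≤ q ^ 2 → Good p r m → m.primeFactorsList.length ≤ 3 * r) ∧
      ∀ u Y : ℕ, p ^ 2 ≤ u ∧ u + Y ≤ q ^ 2 → (p : ℝ) ^ θ ≤ Y → ∀ l T : ℕ, (l ≤ l₀ ∨ T * U p r ≤ x₀) →
        |(G p r l T u Y : ℝ) - Y * U p r *
          ∑ j ∈ range l, Real.exp (-(T * U p r)) * (T * U p r) ^ j / j.factorial| ≤
        ε * (Y * U p r) := by
  obtain ⟨r0, _, h0⟩ := gaps θ hθ l₀ x₀ ε hε
  refine ⟨max r0 1, ?_⟩
  intro r hr
  obtain ⟨N0, hN0⟩ := h0 r ((le_max_left _ _).trans hr)
  refine ⟨max N0 4, ?_⟩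
  intro p hp _ q _ hpq hnext
  have hb : 4 ≤ p := (le_max_right _ _).trans hp
  have hq2 : q ≤ 2 * p := by
    obtain ⟨s, hs, hs1, hs2⟩ := Nat.exists_prime_lt_and_le_two_mul p (by omega)
    exact (hnext s hs hs1).trans hs2
  refine ⟨?_, fun u Y _ hY l T hT => hN0 p ((le_max_left _ _).trans hp) u Y hY l T hT⟩
  intro m hm0 hm hg
  refine few ((le_max_right _ _).trans hr) (by omega) hm0 (hm.trans ?_) hg
  calc q ^ 2 ≤ (2 * p) ^ 2 := Nat.pow_le_pow_left hq2 2
    _ = 4 * p ^ 2 := by ring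
    _ ≤ p * p ^ 2 := Nat.mul_le_mul_right _ hb
    _ = p ^ 3 := by ring

end Pool.Agent.Results.MP_739ba1_nt.AlmostPrimeGapLaws
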