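import Mathlib
import Pool.Agent.H274.Squares

/-!
# Brocard's conjecture for all primes in windows

Let `N(n)` be the number of primes strictly between `p_n²` and `p_{n+1}²`. Let `1 ≤ u_0, u_1, …` be reals with
`∑ u_m^{-t} < ∞` for all `t > τ` (`τ = 0` for geometric sequences, `τ = 1/d` for `u_m = m^d`), and `θ < 1`. For all `a > 0`
outside of a set of Hausdorff dimension at most `(1/5 + τ) / (1 - θ)`, and for almost all `a` if `θ + τ < 4/5`: for all large `m`,
`N(n) ≥ 4` for ALL primes `p_n ≥ 5` with `|p_n - a u_m| ≤ u_m^θ`. More generally there are at least four primes between `l²` and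
`(l + 2)²` for ALL integers `l ≥ 4` with `|l - a u_m| ≤ u_m^θ`.

What is used is the theorem of Heath-Brown (The differences between consecutive primes V, IMRN 2021), `HeathBrown`: the sum of
the gaps `p_{j+1} - p_j ≥ √p_j` with `p_j ≤ x` is `O(x^{3/5 + ε})`; we state it, by partial summation, as the convergence of the
series of `(p_{j+1} - p_j) p_j^{-s}` over these gaps for `s > 3/5`.

For `θ` near `4/5` the windows contain many primes `p_n` (by the prime number theorem in intervals, `θ > 0.525` suffices).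
-/

set_option autoImplicit false

namespace Pool.Agent.Results.MP_739ba1_nt.BrocardInWindows

open Filter MeasureTheory

/-- the primes `p 0 = 2, p 1 = 3, …` -/
noncomputable def p (k : ℕ) : ℕ := Nat.nth Nat.Prime k

/-- Heath-Brown's theorem: the series of `(p_{k+1} - p_k) p_k^{-s}` over the gaps with `p_{k+1} - p_k ≥ √p_k` converges for
`s > 3/5` -/
def HeathBrown : Prop := ∀ s : ℝ, 3 / 5 < s →
  Summable (Set.indicator {k : ℕ | Real.sqrt (p k) ≤ ((p (k + 1) - p k : ℕ) : ℝ)}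
    fun k => ((p (k + 1) - p k : ℕ) : ℝ) * (p k : ℝ) ^ (-s))

/-- the number of primes strictly between `x` and `y` -/
def between (x y : ℕ) : ℕ := ((Finset.Ioo x y).filter Nat.Prime).card

/-- at least four primes between `l²` and `(l+2)²` for all integers `l ≥ 4` in the windows around `a u_m`, and between `p_k²` and
`p_{k+1}²` for all the primes `p_k ≥ 5` in the windows, for all large `m` -/
def Good (u : ℕ → ℝ) (θ a : ℝ) : Prop := ∃ m₀ : ℕ, ∀ m : ℕ, m₀ ≤ m →
  (∀ l : ℕ, 4 ≤ l → |(l : ℝ) - a * u m| ≤ u m ^ θ → 4 ≤ between (l ^ 2) ((l + 2) ^ 2)) ∧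
  ∀ k : ℕ, 5 ≤ p k → |(p k : ℝ) - a * u m| ≤ u m ^ θ → 4 ≤ between (p k ^ 2) (p (k + 1) ^ 2)

/-- **Theorem.** Let `1 ≤ u_m`, `∑_m u_m^{-t} < ∞` for all `t > τ`, `θ < 1`. Brocard's conjecture holds for all primes in the
windows around `a u_m`, for all large `m`: for all `a > 0` outside of a set of dimension at most `(1/5 + τ) / (1 - θ)`, and for
almost all `a > 0` if `θ + τ < 4/5`. -/
theorem result (hHB : HeathBrown) (u : ℕ → ℝ) (τ θ : ℝ) (hu : ∀ m, 1 ≤ u m) (hτ : 0 ≤ τ)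
    (hgrow : ∀ t : ℝ, τ < t → Summable fun m : ℕ => u m ^ (-t)) (hθ : θ < 1) :
    (∃ Z : Set ℝ, dimH Z ≤ ENNReal.ofReal ((1 / 5 + τ) / (1 - θ)) ∧ ∀ a : ℝ, 0 < a → a ∉ Z → Good u θ a) ∧
    (θ + τ < 4 / 5 → ∀ᵐ a : ℝ, 0 < a → Good u θ a) := by
  classical
  have h1 : ∃ Z : Set ℝ, dimH Z ≤ ENNReal.ofReal ((1 / 5 + τ) / (1 - θ)) ∧ ∀ a : ℝ, 0 < a → a ∉ Z → Good u θ a := by
    obtain ⟨Z, hZ1, hZ2⟩ := Pool.Agent.H274.Squares.four (fun s hs => hHB s hs) hu hτ hgrow hθ
    refine ⟨Z, hZ1, fun a ha haZ => ?_⟩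
    obtain ⟨m₀, hm₀⟩ := hZ2 a ha haZ
    refine ⟨m₀, fun m hm => ⟨fun l hl hlm => hm₀ m hm l hl hlm, fun k hk hkm => ?_⟩⟩
    have h2 := hm₀ m hm (p k) (by omega) hkm
    have h3 : p k < p (k + 1) := Pool.Agent.H274.Gaps.p_lt k
    have h4 : (p k).Prime := Pool.Agent.H274.Gaps.p_prime k
    have h5 : (p (k + 1)).Prime := Pool.Agent.H274.Gaps.p_prime (k + 1)
    have h6 : p k + 2 ≤ p (k + 1) := by
      have o1 := h4.odd_of_ne_two (by omega)
      have o2 := h5.odd_of_ne_two (by omega)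
      obtain ⟨x, hx⟩ := o1
      obtain ⟨y, hy⟩ := o2
      omega
    refine h2.trans (Finset.card_le_card fun q hq => ?_)
    rw [Finset.mem_filter, Finset.mem_Ioo] at hq ⊢
    exact ⟨⟨hq.1.1, hq.1.2.trans_le (Nat.pow_le_pow_left h6 2)⟩, hq.2⟩
  refine ⟨h1, fun hθτ => ?_⟩
  obtain ⟨Z, hZ1, hZ2⟩ := h1
  have hnull : volume Z = 0 := by
    rw [← hausdorffMeasure_real]
    refine hausdorffMeasure_of_dimH_lt (d := 1) (hZ1.trans_lt ?_)
    have g1 : (1 / 5 + τ) / (1 - θ) < 1 := by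
      rw [div_lt_one (by linarith)]
      linarith
    simpa using (ENNReal.ofReal_lt_one).2 g1
  filter_upwards [compl_mem_ae_iff.2 hnull] with a ha ha0
  exact hZ2 a ha0 ha

end Pool.Agent.Results.MP_739ba1_nt.BrocardInWindows
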